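import Pool.Agent.TH30.MK.Index

/-!
# Q1 for `Aut(X, Δ)` and for `Aut(X)`

A `Variety` records `N¹(X)_ℝ` with its lattice, the action of `Aut(X)`, and the cone `Nef(X)^e` of a
projective variety `X` carrying a klt Calabi-Yau pair; `X.restrict B` is the same with the group
replaced by the subgroup `B`, for instance `B = Aut(X, Δ)`, so that Q1 for the pair `(X, Δ)` is
`(X.restrict B).Q1`, and `X.Q1` is the weaker statement for the group `Aut(X)`.

`result`: Q1 for `(X, Δ)` is equivalent to `X.Q1` together with the finiteness of the index of
`Aut(X, Δ)` in `Aut(X)` modulo the automorphisms acting trivially on `N¹(X)`. Hence if Q1 holds for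
one pair `(X, Δ₀)`, then for every other pair `(X, Δ)` on the same `X` Q1 is equivalent to this
finiteness of the index.

Proof: if translates under `Aut(X, Δ)` of a rational polyhedral cone `Π` cover the ample cone, then
for `y₀` in `Π` and `a ∈ Aut(X)` we have `a y₀ = b y` with `b ∈ Aut(X, Δ)`, `y ∈ Π`, and by the Siegel
property (which holds for all of `Aut(X)`) `b⁻¹ a` is one of finitely many elements modulo the
kernel. The converse and the passage from coverings to fundamental domains use Looijenga's theorem.
-/

set_option autoImplicit false

namespace Pool.Agent.Results.MP_9f99c5_ag.FiniteIndexCriterion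

open Pool.Agent.TH30.MK.Pres

/-- Q1 for a subgroup `B` holds if and only if it holds for the whole group and `B` has finite index
modulo the elements acting trivially; if Q1 holds for one subgroup `B₀`, then Q1 for `B` is
equivalent to the finiteness of this index. -/
theorem result (X : Variety) (B : Subgroup X.A) :
    ((X.restrict B).Q1 ↔ X.Q1 ∧ FiniteIndexMod X B) ∧
    ∀ B₀ : Subgroup X.A, (X.restrict B₀).Q1 → ((X.restrict B).Q1 ↔ FiniteIndexMod X B) := by
  refine ⟨restrict_iff X B, fun B₀ h₀ => ?_⟩
  rw [restrict_iff X B]
  exact ⟨fun h => h.2, fun h => ⟨((restrict_iff X B₀).1 h₀).1, h⟩⟩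

end Pool.Agent.Results.MP_9f99c5_ag.FiniteIndexCriterion
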