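import Pool.Agent.TH30.MK.Pres

/-!
# The nef cone conjecture for pairs: reduction to indecomposable pairs

`Pairs` records the klt Calabi-Yau pairs `(X, Δ)`: for each of them the data `nef` which enter the
conjecture (`N¹(X)` with its lattice, the group `Aut(X, Δ)` acting on it, the cone `Nef^e(X)`), the
dimension, and a standard fact on the kernel of `Aut(X, Δ) → GL(N¹(X))`. `Variety.Q1` is the
conjecture for one pair.

`result`: the class of the pairs for which the conjecture holds contains every finite quotient of
every product of its members; and the conjecture for all pairs is equivalent to its restriction to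
the pairs which are not finite quotients of products of pairs of smaller dimension.
-/

set_option autoImplicit false

namespace Pool.Agent.Results.MP_9f99c5_ag.IndecomposablePairs

open Pool.Agent.TH30.MK.Pres

/-- The klt Calabi-Yau pairs, as far as they enter the cone conjecture. -/
structure Pairs where
  /-- the klt Calabi-Yau pairs `(X, Δ)` -/
  P : Type
  /-- `N¹(X)`, the lattice of classes of Cartier divisors, the group `Aut(X, Δ)` acting on `N¹(X)`,
  and the nef effective cone `Nef^e(X)` -/
  nef : P → Variety
  /-- the dimension of `X` -/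
  dim : P → ℕ
  /-- the kernel of `Aut(X, Δ) → GL(N¹(X))` contains an abelian variety (the identity component of
  `Aut(X, Δ)`) with finite index -/
  kernel : ∀ Y, KerCond (nef Y).act

/-- `Y` is the quotient, by a finite group `G` of automorphisms, of a product of the pairs `F i`. -/
def Pairs.IsQuotientOfProduct (T : Pairs) {I : Type} [Fintype I] (F : I → T.P) (Y : T.P) : Prop :=
  ∃ (X : T.P) (G : Subgroup (T.nef X).A), Finite G ∧
    Variety.IsProduct (fun i => T.nef (F i)) (T.nef X) ∧ (T.nef X).IsQuotient G (T.nef Y)

/-- `Y` is a finite quotient of a product of pairs of smaller dimension. -/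
def Pairs.Decomposable (T : Pairs) (Y : T.P) : Prop :=
  ∃ (I : Type) (_ : Fintype I) (F : I → T.P), (∀ i, T.dim (F i) < T.dim Y) ∧
    T.IsQuotientOfProduct F Y

/-- The cone conjecture for all klt Calabi-Yau pairs is equivalent to its restriction to the pairs
which are not finite quotients of products of pairs of smaller dimension; and it passes from the
factors of a product to all finite quotients of the product. -/
theorem result (T : Pairs) :
    ((∀ Y, (T.nef Y).Q1) ↔ ∀ Y, ¬ T.Decomposable Y → (T.nef Y).Q1) ∧
    ∀ (I : Type) [Fintype I] (F : I → T.P) (Y : T.P), T.IsQuotientOfProduct F Y →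
      (∀ i, (T.nef (F i)).Q1) → (T.nef Y).Q1 := by
  have key : ∀ (I : Type) [Fintype I] (F : I → T.P) (Y : T.P), T.IsQuotientOfProduct F Y →
      (∀ i, (T.nef (F i)).Q1) → (T.nef Y).Q1 := by
    rintro I _ F Y ⟨X, G, hG, hP, hQ⟩ hF
    exact Variety.main (fun i => T.nef (F i)) (T.nef X) hP (T.kernel X) G (T.nef Y) hQ hF
  refine ⟨⟨fun h Y _ => h Y, fun h Y => ?_⟩, key⟩
  obtain ⟨n, hn⟩ : ∃ n, T.dim Y = n := ⟨_, rfl⟩
  induction n using Nat.strong_induction_on generalizing Y with
  | _ n ih =>
    by_cases hd : T.Decomposable Y
    · obtain ⟨I, _, F, hF, hY⟩ := hd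
      exact key I F Y hY fun i => ih (T.dim (F i)) (hn ▸ hF i) (F i) rfl
    · exact h Y hd

end Pool.Agent.Results.MP_9f99c5_ag.IndecomposablePairs
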